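import Pool.Agent.Q54.EM.StmN

/-!
Project EM: jobs E18 and Z0.
-/

set_option autoImplicit false

namespace Pool.Agent.Q162.EM

open Pool.Agent.Q54.EM

/-- E18 -/
theorem e18 (ser : S_SER) : S_E18 := by
  intro q t c e hq1 hq2 ht0 ht1 hc1 hc2 ha he h
  have ha0 : 0 < q * (1 - t) := mul_pos (by linarith) (by linarith)
  have hc0 : 458 / 1000 ≤ c := by linarith
  have s1 := ser (q * (1 - t)) 0 c ha0 (by linarith) le_rfl one_pos (by linarith) (by linarith)
  have s2 := ser q 0 c (by linarith) (by linarith) le_rfl one_pos (by linarith) (by linarith)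
  obtain ⟨a, hadef⟩ : ∃ a, a = q * (1 - t) := ⟨_, rfl⟩
  rw [← hadef] at s1 h ha ha0
  have f1 : 1 + a / 2 + a ^ 2 / 3 ≤ ff a := by
    have := s1.1
    have h3 : 0 ≤ a ^ 3 / 4 + a ^ 4 / 5 + a ^ 5 / 6 := by positivity
    linarith
  have f2 : 1 ≤ (1 - c * a) * ff a := by
    have hca : c * a ≤ 4724 / 10000 * a := mul_le_mul_of_nonneg_right hc2 ha0.le
    have h1 : (1 - 4724 / 10000 * a) * (1 + a / 2 + a ^ 2 / 3) ≤ (1 - c * a) * ff a := by
      apply mul_le_mul (by linarith) f1 (by positivity)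
      linarith
    have h2 : 1 ≤ (1 - 4724 / 10000 * a) * (1 + a / 2 + a ^ 2 / 3) := by
      have e1 : (1 - 4724 / 10000 * a) * (1 + a / 2 + a ^ 2 / 3) - 1 =
          a * (276 / 10000 + a * (1 / 3 - 2362 / 10000) - 4724 / 30000 * (a * a)) := by ring
      have h3 : a * a ≤ a * (15456 / 100000) := mul_le_mul_of_nonneg_left ha ha0.le
      have h4 : 0 ≤ 276 / 10000 + a * (1 / 3 - 2362 / 10000) - 4724 / 30000 * (a * a) := by
        linarith
      have h5 := mul_nonneg ha0.le h4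
      linarith
    linarith
  by_contra hcon
  push Not at hcon
  have hq0 : 0 < q := by linarith
  have g1 : 1 < (1 - c * q * (1 + e)) * ff q := lt_of_le_of_lt f2 h
  have hff0 : 0 ≤ ff q := by
    refine le_trans ?_ s2.1
    positivity
  have hcq : 54044 / 100000 * q ≤ c * q * (1 + e) := by
    have h1 : 458 / 1000 * q ≤ c * q := mul_le_mul_of_nonneg_right hc0 hq0.le
    have h2 : 458 / 1000 * q * (118 / 100) ≤ c * q * (1 + e) := by
      apply mul_le_mul h1 (by linarith) (by norm_num)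
      positivity
    linarith
  have g2 : 1 < (1 - 54044 / 100000 * q) * ff q :=
    lt_of_lt_of_le g1 (mul_le_mul_of_nonneg_right (by linarith) hff0)
  have hU : ff q ≤ 1 + q / 2 + q ^ 2 / 3 + q ^ 3 / 4 + q ^ 4 / 5 + q ^ 5 / (378 / 100) := by
    refine s2.2.1.trans ?_
    have h1 : q ^ 5 / (6 * (1 - q)) ≤ q ^ 5 / (378 / 100) := by
      apply div_le_div_of_nonneg_left (by positivity) (by norm_num)
      linarith
    linarith
  have g3 : 1 < (1 - 54044 / 100000 * q) *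
      (1 + q / 2 + q ^ 2 / 3 + q ^ 3 / 4 + q ^ 4 / 5 + q ^ 5 / (378 / 100)) :=
    lt_of_lt_of_le g2 (mul_le_mul_of_nonneg_left hU (by linarith))
  have p2 : q ^ 2 ≤ (37 / 100) ^ 2 := pow_le_pow_left₀ hq0.le hq2 2
  have p3 : q ^ 3 ≤ (37 / 100) ^ 3 := pow_le_pow_left₀ hq0.le hq2 3
  have p4 : q ^ 4 ≤ (37 / 100) ^ 4 := pow_le_pow_left₀ hq0.le hq2 4
  have p5 : 0 ≤ q ^ 5 := by positivity
  have e1 : (1 - 54044 / 100000 * q) *
      (1 + q / 2 + q ^ 2 / 3 + q ^ 3 / 4 + q ^ 4 / 5 + q ^ 5 / (378 / 100)) - 1 =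
      q * ((1 / 2 - 54044 / 100000) + (1 / 3 - 27022 / 100000) * q +
        (1 / 4 - 54044 / 300000) * q ^ 2 + (1 / 5 - 13511 / 100000) * q ^ 3 +
        (100 / 378 - 54044 / 500000) * q ^ 4 - 54044 / 378000 * q ^ 5) := by ring
  have h9 : (1 / 2 - 54044 / 100000) + (1 / 3 - 27022 / 100000) * q +
        (1 / 4 - 54044 / 300000) * q ^ 2 + (1 / 5 - 13511 / 100000) * q ^ 3 +
        (100 / 378 - 54044 / 500000) * q ^ 4 - 54044 / 378000 * q ^ 5 ≤ 0 := by
    norm_num at p2 p3 p4 ⊢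
    linarith
  have h10 := mul_nonpos_of_nonneg_of_nonpos hq0.le h9
  linarith

/-- Z0 -/
theorem z0 (nt : S_NT) (cs : S_CS) (ser : S_SER) : S_Z0 := by
  intro k r l h w1 W hN
  by_contra hcon
  push Not at hcon
  obtain ⟨ha0, ha1, hc1, hc2, -⟩ := cs k r hN.k6 hN.rc
  have H := nt k r l h w1 W (r / l) (r / k) (k * (1 - r) / r) (1 - l / k) (l / h - 1) (h / r) _
    hN rfl rfl rfl rfl rfl rfl rfl
  obtain ⟨-, -, hq0, -, -, he, -, -, -, -, -, -, hTA, -⟩ := H
  obtain ⟨a, hadef⟩ : ∃ a, a = r / k := ⟨_, rfl⟩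
  obtain ⟨q, hqdef⟩ : ∃ q, q = r / l := ⟨_, rfl⟩
  obtain ⟨c, hcdef⟩ : ∃ c, c = k * (1 - r) / r := ⟨_, rfl⟩
  obtain ⟨e, hedef⟩ : ∃ e, e = l / h - 1 := ⟨_, rfl⟩
  have hqa : q ≤ a := by
    rw [hqdef, hadef]
    have hk : (0 : ℝ) < k := by
      have := hN.k6
      have h6 : (6 : ℝ) ≤ k := by exact_mod_cast this
      linarith
    have hr : 0 < r := by
      by_contra hr
      have h1 : r / l ≤ 0 := div_nonpos_of_nonpos_of_nonneg (not_lt.1 hr) hN.l0.le
      linarith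
    exact div_le_div_of_nonneg_left hr.le hk hcon
  rw [← hadef] at ha0 ha1 hc1 hTA
  rw [← hcdef] at hc1 hc2 hTA
  rw [← hqdef] at hq0 hTA
  rw [← hedef] at he hTA
  have s1 := ser a 0 c ha0 (by linarith) le_rfl one_pos (by linarith) (by linarith)
  have s2 := ser q 0 c hq0 (by linarith) le_rfl one_pos (by linarith) (by linarith)
  have h1 := s1.2.2.2 q hq0 hqa
  have hff0 : 0 ≤ ff q := by
    refine le_trans ?_ s2.1
    positivity
  have h2 : (1 - c * q * (1 + e)) * ff q ≤ (1 - c * q) * ff q := by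
    apply mul_le_mul_of_nonneg_right _ hff0
    have : 0 ≤ c * q * e := mul_nonneg (mul_nonneg (by linarith) hq0.le) he
    linarith
  linarith

end Pool.Agent.Q162.EM
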