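import Pool.Agent.Q86.EM.Stm2

/-!
# Project EM/FS (helper86), job ONE: KLS passes from the sections over a line to the body
-/

set_option autoImplicit false

namespace Pool.Agent.Q162.EM

open MeasureTheory Set Filter Topology
open scoped ENNReal InnerProductSpace ContDiff
open Pool.Agent.W695.KH (EV VV)
open Pool.Agent.Q86.FIB (Sp EK spl Std oo lp CovF FibreP om dens vol fib pd sv gT gZ WIneq lin mn BB)
open Pool.Agent.Q86.EM

variable {n : ℕ}

/-! ### adding a constant to the potential -/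

theorem scal (V : Sp 1 × Sp n → ℝ) (c : ℝ) (t : Sp 1) (g : Sp n → ℝ) :
    ∫ z, g z * Real.exp (-(V (t, z) + c)) = Real.exp (-c) * ∫ z, g z * Real.exp (-V (t, z)) := by
  rw [← integral_const_mul]
  refine integral_congr_ae (Eventually.of_forall fun z => ?_)
  simp only
  rw [neg_add, Real.exp_add]
  ring

theorem scal_dens (V : Sp 1 × Sp n → ℝ) (c : ℝ) (t : Sp 1) :
    dens (fun x => V x + c) t = Real.exp (-c) * dens V t := by
  have h := scal V c t (fun _ => 1)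
  simp only [one_mul] at h
  unfold dens
  exact h

theorem scal_fib (V : Sp 1 × Sp n → ℝ) (c : ℝ) (t : Sp 1) (H : Sp 1 × Sp n → ℝ) :
    fib (fun x => V x + c) H t = Real.exp (-c) * fib V H t := by
  unfold fib
  exact scal V c t (fun z => H (t, z))

theorem scal_cov (V : Sp 1 × Sp n → ℝ) (c : ℝ) (t : Sp 1) (σ : ℝ)
    (h : CovF (fun x => V x + c) t σ) : CovF V t σ := by
  intro θ
  have h1 := h θ
  rw [scal_dens, scal_fib, scal_fib] at h1
  have he : 0 < Real.exp (-c) := Real.exp_pos _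
  have he2 : 0 < Real.exp (-c) * Real.exp (-c) := mul_pos he he
  have h2 : Real.exp (-c) * Real.exp (-c) * (dens V t * fib V (fun x => (∑ i, θ i * x.2 i) ^ 2) t -
      (fib V (fun x => ∑ i, θ i * x.2 i) t) ^ 2) ≤
      Real.exp (-c) * Real.exp (-c) * (σ * (∑ i, θ i ^ 2) * dens V t ^ 2) := by
    calc _ = Real.exp (-c) * dens V t * (Real.exp (-c) * fib V (fun x => (∑ i, θ i * x.2 i) ^ 2) t) -
          (Real.exp (-c) * fib V (fun x => ∑ i, θ i * x.2 i) t) ^ 2 := by ring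
      _ ≤ σ * (∑ i, θ i ^ 2) * (Real.exp (-c) * dens V t) ^ 2 := h1
      _ = _ := by ring
  exact le_of_mul_le_mul_left h2 he2

/-- the fibre inequality, with a larger constant, for the potential with the constant added -/
theorem scal_P (V : Sp 1 × Sp n → ℝ) (c : ℝ) (t : Sp 1) (φ : Sp n → ℝ) (K K' : ℝ) (hK : K ≤ K')
    (h : dens V t * (∫ z, φ z ^ 2 * Real.exp (-V (t, z))) - (∫ z, φ z * Real.exp (-V (t, z))) ^ 2 ≤
      K * dens V t * ∫ z, (∑ i, (pd (sv i) φ z) ^ 2) * Real.exp (-V (t, z))) :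
    dens (fun x => V x + c) t * (∫ z, φ z ^ 2 * Real.exp (-(V (t, z) + c))) -
      (∫ z, φ z * Real.exp (-(V (t, z) + c))) ^ 2 ≤
      K' * dens (fun x => V x + c) t * ∫ z, (∑ i, (pd (sv i) φ z) ^ 2) * Real.exp (-(V (t, z) + c)) := by
  rw [scal_dens, scal V c t (fun z => φ z ^ 2), scal V c t φ,
    scal V c t (fun z => ∑ i, (pd (sv i) φ z) ^ 2)]
  have he : 0 < Real.exp (-c) := Real.exp_pos _
  have hd : 0 ≤ dens V t := by
    unfold dens
    exact integral_nonneg fun z => (Real.exp_pos _).le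
  have hG : 0 ≤ ∫ z, (∑ i, (pd (sv i) φ z) ^ 2) * Real.exp (-V (t, z)) :=
    integral_nonneg fun z => mul_nonneg (Finset.sum_nonneg fun i _ => sq_nonneg _) (Real.exp_pos _).le
  have h2 : K * dens V t * ∫ z, (∑ i, (pd (sv i) φ z) ^ 2) * Real.exp (-V (t, z)) ≤
      K' * dens V t * ∫ z, (∑ i, (pd (sv i) φ z) ^ 2) * Real.exp (-V (t, z)) :=
    mul_le_mul_of_nonneg_right (mul_le_mul_of_nonneg_right hK hd) hG
  have h3 := mul_le_mul_of_nonneg_left (h.trans h2) (mul_pos he he).le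
  calc _ = Real.exp (-c) * Real.exp (-c) * (dens V t * (∫ z, φ z ^ 2 * Real.exp (-V (t, z))) -
        (∫ z, φ z * Real.exp (-V (t, z))) ^ 2) := by ring
    _ ≤ Real.exp (-c) * Real.exp (-c) * (K' * dens V t *
        ∫ z, (∑ i, (pd (sv i) φ z) ^ 2) * Real.exp (-V (t, z))) := h3
    _ = _ := by ring

/-! ### variances over a body -/

theorem vol_pos {κ : Type} [Fintype κ] {D : Set (Eu κ)} (hD : CB D) : 0 < (volume D).toReal := by
  apply ENNReal.toReal_pos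
  · exact (Measure.measure_pos_of_nonempty_interior _ hD.int).ne'
  · exact hD.cpt.measure_lt_top.ne

theorem EV_nn {κ : Type} [Fintype κ] (D : Set (Eu κ)) (v : Eu κ → ℝ) (h : ∀ x, 0 ≤ v x) : 0 ≤ EV D v := by
  unfold EV
  exact div_nonneg (integral_nonneg h) ENNReal.toReal_nonneg

theorem VV_nn {κ : Type} [Fintype κ] {D : Set (Eu κ)} (hD : CB D) (f : Eu κ → ℝ) (hf : Continuous f) :
    0 ≤ VV D f := by
  have hv := vol_pos hD
  have i1 : IntegrableOn f D volume := hf.continuousOn.integrableOn_compact hD.cpt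
  have i2 : IntegrableOn (fun x => f x ^ 2) D volume := (hf.pow 2).continuousOn.integrableOn_compact hD.cpt
  have ic : IntegrableOn (fun _ : Eu κ => (EV D f) ^ 2) D volume :=
    continuous_const.continuousOn.integrableOn_compact hD.cpt
  have h1 : 0 ≤ ∫ x in D, (f x - EV D f) ^ 2 := integral_nonneg fun x => sq_nonneg _
  have h2 : ∫ x in D, (f x - EV D f) ^ 2 =
      (∫ x in D, f x ^ 2) - 2 * EV D f * (∫ x in D, f x) + (volume D).toReal * (EV D f) ^ 2 := by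
    have e1 : ∀ x, (f x - EV D f) ^ 2 = (f x ^ 2 - 2 * EV D f * f x) + (EV D f) ^ 2 := fun x => by ring
    have i3 : IntegrableOn (fun x => 2 * EV D f * f x) D volume := i1.const_mul _
    have i4 : IntegrableOn (fun x => f x ^ 2 - 2 * EV D f * f x) D volume := i2.sub i3
    calc ∫ x in D, (f x - EV D f) ^ 2 = ∫ x in D, ((f x ^ 2 - 2 * EV D f * f x) + (EV D f) ^ 2) :=
          integral_congr_ae (Eventually.of_forall fun x => e1 x)
      _ = (∫ x in D, (f x ^ 2 - 2 * EV D f * f x)) + ∫ x in D, (EV D f) ^ 2 := integral_add i4 ic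
      _ = ((∫ x in D, f x ^ 2) - ∫ x in D, 2 * EV D f * f x) + ∫ x in D, (EV D f) ^ 2 := by
          rw [integral_sub i2 i3]
      _ = _ := by
          rw [integral_const_mul, integral_const]
          simp [Measure.real]
  rw [h2] at h1
  have e2 : ∫ x in D, f x = (volume D).toReal * EV D f := by
    unfold EV
    field_simp
  have e3 : ∫ x in D, f x ^ 2 = (volume D).toReal * EV D (fun x => f x ^ 2) := by
    unfold EV
    field_simp
  rw [e2, e3] at h1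
  have h3 : 0 ≤ (volume D).toReal * VV D f := by
    unfold VV
    calc (0 : ℝ) ≤ _ := h1
      _ = _ := by ring
  exact nonneg_of_mul_nonneg_right h3 hv

theorem CV_nn {D : Set (EK 1 n)} (hD : CB D) {s : ℝ} (hs : CV D s) : 0 ≤ s := by
  have h1 := hs (EuclideanSpace.single (Sum.inl 0) (1 : ℝ))
  have h2 : 0 ≤ VV D (fun x => ⟪(EuclideanSpace.single (Sum.inl 0) (1 : ℝ) : EK 1 n), x⟫_ℝ) :=
    VV_nn hD _ (continuous_const.inner continuous_id)
  rw [PiLp.norm_single] at h1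
  simp only [norm_one, one_pow, mul_one] at h1
  exact h2.trans h1

theorem CV_mono {D : Set (EK 1 n)} {s s' : ℝ} (h : s ≤ s') (hs : CV D s) : CV D s' := fun θ =>
  (hs θ).trans (mul_le_mul_of_nonneg_right h (sq_nonneg _))

theorem PI_mono {κ : Type} [Fintype κ] {D : Set (Eu κ)} {c c' : ℝ} (h : c ≤ c') (hc : PI D c) : PI D c' :=
  fun f hf => (hc f hf).trans (mul_le_mul_of_nonneg_right h (EV_nn D _ fun x => sq_nonneg _))

theorem oo_zero (t : Sp 1) : oo (t 0) = t := by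
  funext i
  unfold oo
  rw [Subsingleton.elim i 0]

/-- the step for a positive bound of the covariances -/
theorem step (C₁ : ℝ) (hC₁ : 1 ≤ C₁) (H1 : ∀ (n : ℕ) (D : Set (EK 1 n)), CB D → ∀ k : ℝ, 1 ≤ k →
  ∀ a b : ℝ, a ≤ b → (∃ x ∈ D, tc x < a) → (∃ x ∈ D, b < tc x) → (∀ t ∈ Icc a b, KLSc (sl D t) k) →
  ∀ ε : ℝ, 0 < ε → ∃ A₀ : ℝ, 0 < A₀ ∧ ∀ A : ℝ, A₀ ≤ A → ∀ U : EK 1 n → ℝ, Ap D A U →
    ∀ t ∈ Icc a b, ∀ σ : ℝ, 0 ≤ σ → CovF (onSp U) (oo t) σ →
    ∀ φ : Sp n → ℝ, ContDiff ℝ 1 φ → HasCompactSupport φ →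
      dens (onSp U) (oo t) * (∫ z, φ z ^ 2 * Real.exp (-onSp U (oo t, z))) -
        (∫ z, φ z * Real.exp (-onSp U (oo t, z))) ^ 2 ≤
      C₁ * (k * σ + ε) * dens (onSp U) (oo t) *
        ∫ z, (∑ i, (pd (sv i) φ z) ^ 2) * Real.exp (-onSp U (oo t, z)))
    (C₂ : ℝ) (hC₂ : 0 < C₂) (H2 : ∀ (n : ℕ) (W : Sp 1 × Sp n → ℝ), Std W →
  ∫ t, dens W t = 1 → ∀ s M : ℝ, 0 < s → 0 ≤ M →
  (∃ c : Sp 1, ∀ a, ∫ t, (t a - c a) ^ 2 * dens W t ≤ s) →
  (∀ θ : Sp n, ∑ i, θ i ^ 2 = 1 →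
    ∃ c, ∫ x, lin θ c x.2 ^ 2 * Real.exp (-W x) ∂(vol 1 n) ≤ s) →
  FibreP W (fun t => M * om W (t 0)) →
  ∀ f : Sp 1 × Sp n → ℝ, ContDiff ℝ 1 f → HasCompactSupport f → WIneq W f (C₂ * (M + s)))
    (C₃ : ℝ) (H3 : ∀ (n : ℕ) (D : Set (EK 1 n)), CB D → ∀ D₀ A₀ : ℝ, 0 < A₀ →
  (∀ A : ℝ, A₀ ≤ A → ∀ U : EK 1 n → ℝ, Ap D A U →
    ∀ W : Sp 1 × Sp n → ℝ, W = (fun x => onSp U x + Real.log (∫ y, Real.exp (-U y))) →
    ∀ f : Sp 1 × Sp n → ℝ, ContDiff ℝ 1 f → (∀ x, gT f x + gZ f x ≤ 1) →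
      (∫ x, f x ^ 2 * Real.exp (-W x) ∂(vol 1 n)) - (∫ x, f x * Real.exp (-W x) ∂(vol 1 n)) ^ 2 ≤
        D₀) →
  PI D (C₃ * D₀))
    (h4 : S_CRB) (h5 : S_TLB) (h6 : S_COA) (h7 : S_SLG)
    (n : ℕ) (D : Set (EK 1 n)) (hD : CB D) (k : ℝ) (hk : 1 ≤ k)
    (hsl : ∀ t : ℝ, (interior (sl D t)).Nonempty → KLSc (sl D t) k) (s : ℝ) (hs : 0 < s) (hCV : CV D s) :
    PI D (C₃ * (8 / 3 * (C₂ * (C₁ * (2 ^ 20 * k + 1) * s + 2 * s)))) := by
  obtain ⟨M₀, hM₀, hcr⟩ := h4 n D hD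
  -- the level
  set τ : ℝ := (s / M₀) ^ 4 with hτ
  have hsM : 0 < s / M₀ := div_pos hs hM₀
  have hτ0 : 0 < τ := by positivity
  have hτr : τ ^ (-(1 / 4) : ℝ) = M₀ / s := by
    rw [hτ, ← Real.rpow_natCast, ← Real.rpow_mul hsM.le]
    norm_num
    rw [Real.rpow_neg_one, inv_div]
  obtain ⟨a, b, hab, ha, hb, A1, hA1, htl⟩ := h5 n D hD τ hτ0
  have hslab : ∀ t ∈ Icc a b, KLSc (sl D t) k := fun t ht =>
    hsl t ((h7 n D hD a b hab ha hb).1 t ht).1.int
  obtain ⟨A2, hA2, hfb⟩ := H1 n D hD k hk a b hab ha hb hslab s hs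
  obtain ⟨A3, hA3, hco⟩ := h6 n D hD s hCV s hs
  obtain ⟨M, hM⟩ : ∃ M : ℝ, M = C₁ * (2 ^ 20 * k + 1) * s := ⟨_, rfl⟩
  have hk0 : 0 < k := by linarith
  have hC₁0 : 0 < C₁ := by linarith
  have hM0 : 0 ≤ M := by
    rw [hM]
    positivity
  have hsM2 : s ≤ M := by
    rw [hM]
    have h1 : 1 ≤ C₁ * (2 ^ 20 * k + 1) := by nlinarith
    nlinarith
  rw [← hM]
  have key : ∀ A : ℝ, max (max A1 A2) (max A3 1) ≤ A → ∀ U : EK 1 n → ℝ, Ap D A U →
    ∀ W : Sp 1 × Sp n → ℝ, W = (fun x => onSp U x + Real.log (∫ y, Real.exp (-U y))) →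
    ∀ f : Sp 1 × Sp n → ℝ, ContDiff ℝ 1 f → (∀ x, gT f x + gZ f x ≤ 1) →
      (∫ x, f x ^ 2 * Real.exp (-W x) ∂(vol 1 n)) - (∫ x, f x * Real.exp (-W x) ∂(vol 1 n)) ^ 2 ≤
        8 / 3 * (C₂ * (M + 2 * s)) := by
    intro A hA U hU W hW f hf hgr
    have g1 : A1 ≤ A := ((le_max_left _ _).trans (le_max_left _ _)).trans hA
    have g2 : A2 ≤ A := ((le_max_right _ _).trans (le_max_left _ _)).trans hA
    have g3 : A3 ≤ A := ((le_max_left _ _).trans (le_max_right _ _)).trans hA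
    have g4 : 1 ≤ A := ((le_max_right _ _).trans (le_max_right _ _)).trans hA
    obtain ⟨hstd, hone, hvt, hvz⟩ := hco A g3 U hU W hW
    obtain ⟨c, hc⟩ : ∃ c : ℝ, c = Real.log (∫ y, Real.exp (-U y)) := ⟨_, rfl⟩
    have hWc : W = fun x => onSp U x + c := by
      rw [hW, hc]
    have e2 : s + s = 2 * s := by ring
    rw [e2] at hvt hvz
    have h2s : 0 < 2 * s := by linarith
    have hFP : FibreP W (fun t => M * om W (t 0)) := by
      intro t φ hφ hφs
      have hom : 1 ≤ om W (t 0) := hstd.om_ge hone (t 0)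
      by_cases ht : t 0 ∈ Icc a b
      · have hcov := hstd.covF hone h2s hvz t
        have hBB : BB W (2 * s) (t 0) = 2 ^ 19 * (2 * s) * om W (t 0) := rfl
        rw [hBB] at hcov
        obtain ⟨w, hw⟩ : ∃ w, w = om W (t 0) := ⟨_, rfl⟩
        rw [← hw] at hcov hom
        simp only
        rw [← hw]
        have hσ : 0 ≤ 2 ^ 19 * (2 * s) * w := by positivity
        rw [hWc] at hcov ⊢
        have hcov2 := scal_cov (onSp U) c t _ hcov
        rw [← oo_zero t] at hcov2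
        have h1 := hfb A g2 U hU (t 0) ht _ hσ hcov2 φ hφ hφs
        rw [oo_zero t] at h1
        refine scal_P (onSp U) c t φ _ _ ?_ h1
        rw [hM]
        have h2 : k * (2 ^ 19 * (2 * s) * w) + s ≤ (2 ^ 20 * k + 1) * s * w := by
          nlinarith
        calc C₁ * (k * (2 ^ 19 * (2 * s) * w) + s) ≤ C₁ * ((2 ^ 20 * k + 1) * s * w) :=
              mul_le_mul_of_nonneg_left h2 hC₁0.le
          _ = C₁ * (2 ^ 20 * k + 1) * s * w := by ring
      · have h1 := hcr A g4 U hU t φ hφ hφs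
        have hmn : mn W (t 0) ≤ τ := by
          have h2 := htl A g1 U hU (t 0) ht
          rw [hW]
          exact h2
        have hmn0 : 0 < mn W (t 0) := Pool.Agent.Q86.FIB.mn_pos (hstd.ld hone) (t 0)
        have hom2 : M₀ / s ≤ om W (t 0) := by
          rw [← hτr]
          unfold om
          exact Real.rpow_le_rpow_of_nonpos hmn0 hmn (by norm_num)
        have hMM : M₀ ≤ M * om W (t 0) := by
          have h3 : M₀ ≤ s * om W (t 0) := by
            rw [div_le_iff₀ hs] at hom2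
            linarith
          exact h3.trans (mul_le_mul_of_nonneg_right hsM2 (by linarith))
        simp only
        obtain ⟨w, hw⟩ : ∃ w, w = om W (t 0) := ⟨_, rfl⟩
        rw [← hw] at hMM ⊢
        rw [hWc]
        exact scal_P (onSp U) c t φ _ _ hMM h1
    have hWI := H2 n W hstd hone (2 * s) M h2s hM0 hvt hvz hFP
    exact (hstd.ext_lip hone (D := C₂ * (M + 2 * s)) (by positivity) hWI hf hgr).2
  exact H3 n D hD (8 / 3 * (C₂ * (M + 2 * s))) (max (max A1 A2) (max A3 1))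
    (lt_of_lt_of_le one_pos ((le_max_right _ _).trans (le_max_right _ _))) key

/-- **One step**: KLS passes from the sections over a line to the body. -/
theorem one (h1 : S_FBB) (h2 : S_MLN) (h3 : S_LPB) (h4 : S_CRB) (h5 : S_TLB) (h6 : S_COA)
    (h7 : S_SLG) : S_ONE := by
  obtain ⟨C₁, hC₁, H1⟩ := h1
  obtain ⟨C₂, hC₂, H2⟩ := h2
  obtain ⟨C₃, hC₃, H3⟩ := h3
  obtain ⟨C, hC⟩ : ∃ C : ℝ, C = max 1 (C₃ * (8 / 3 * (C₂ * (C₁ * (2 ^ 20 + 3))))) := ⟨_, rfl⟩
  have hC1 : 1 ≤ C := by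
    rw [hC]
    exact le_max_left _ _
  have hC2 : C₃ * (8 / 3 * (C₂ * (C₁ * (2 ^ 20 + 3)))) ≤ C := by
    rw [hC]
    exact le_max_right _ _
  refine ⟨C, hC1, ?_⟩
  intro n D hD k hk hsl
  have hk0 : 0 < k := by linarith
  have pos : ∀ s : ℝ, 0 < s → CV D s → PI D (C * k * s) := by
    intro s hs hCV
    have h := step C₁ hC₁ H1 C₂ hC₂ H2 C₃ H3 h4 h5 h6 h7 n D hD k hk hsl s hs hCV
    refine PI_mono ?_ h
    have e1 : C₁ * (2 ^ 20 * k + 1) * s + 2 * s ≤ C₁ * (2 ^ 20 + 3) * (k * s) := by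
      have h8 : s ≤ k * s := by nlinarith
      have h9 : k * s ≤ C₁ * (k * s) := by
        have : 0 ≤ k * s := by positivity
        nlinarith
      nlinarith
    calc C₃ * (8 / 3 * (C₂ * (C₁ * (2 ^ 20 * k + 1) * s + 2 * s))) ≤
          C₃ * (8 / 3 * (C₂ * (C₁ * (2 ^ 20 + 3) * (k * s)))) := by
            apply mul_le_mul_of_nonneg_left _ (by linarith)
            apply mul_le_mul_of_nonneg_left _ (by norm_num)
            exact mul_le_mul_of_nonneg_left e1 hC₂.le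
      _ = (C₃ * (8 / 3 * (C₂ * (C₁ * (2 ^ 20 + 3))))) * (k * s) := by ring
      _ ≤ C * (k * s) := mul_le_mul_of_nonneg_right hC2 (by positivity)
      _ = C * k * s := by ring
  intro s hCV f hf
  have hs0 := CV_nn hD hCV
  obtain ⟨E, hE⟩ : ∃ E, E = EV D fun x => ‖fderiv ℝ f x‖ ^ 2 := ⟨_, rfl⟩
  have hE0 : 0 ≤ E := by
    rw [hE]
    exact EV_nn D _ fun x => sq_nonneg _
  rw [← hE]
  apply le_of_forall_pos_le_add
  intro δ hδ
  have hCk : 0 ≤ C * k * E := by positivity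
  obtain ⟨ε, hε⟩ : ∃ ε : ℝ, ε = δ / (C * k * E + 1) := ⟨_, rfl⟩
  have hε0 : 0 < ε := by
    rw [hε]
    positivity
  have h := pos (s + ε) (by linarith) (CV_mono (by linarith) hCV) f hf
  rw [← hE] at h
  refine h.trans ?_
  have h8 : C * k * E * ε ≤ δ := by
    rw [hε]
    calc C * k * E * (δ / (C * k * E + 1)) = δ * ((C * k * E) / (C * k * E + 1)) := by ring
      _ ≤ δ * 1 := by
          apply mul_le_mul_of_nonneg_left _ hδ.le
          rw [div_le_one (by linarith)]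
          linarith
      _ = δ := mul_one δ
  calc C * k * (s + ε) * E = C * k * s * E + C * k * E * ε := by ring
    _ ≤ C * k * s * E + δ := by linarith

end Pool.Agent.Q162.EM
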